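import Pool.Agent.ASE.Stmts7

/-!
# Squad ASE, row GCO: the conclusion of the linear algebra
-/

open scoped BigOperators

set_option linter.unusedSectionVars false

noncomputable section

namespace Pool.Agent.PP.SE.H83

open Pool.Agent.Helper51_AWC Pool.Agent.Helper79_WRA Pool.Agent.PP Pool.Agent.PP.KF
open Pool.Agent.PP.K9 Pool.Agent.PP.K9.H97 Pool.Agent.PP.H75 Pool.Agent.PP.T3 Pool.Agent.PP.SO
open Pool.Agent.PP.SD

theorem gco (gid : GidStmt) (gsc : GscStmt) (gdi : GdiStmt) (lhf : SO.LHfStmt)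
    (lia : SO.LIaStmt) : GcoStmt := by
  intro ℓ _ V Γ I _ _ _ _ _ _ ρ P Z F FF N Y s₀ hLP hF0 hFFd hLF hLX
  rcases isEmpty_or_nonempty I with hI | hI
  · have hFF : FF = F := by
      funext v
      by_cases hv : v = 0
      · rw [hv, hFFd.1, hF0]
      · rw [hFFd.2 v hv, Finset.univ_eq_empty, Finset.sum_empty, add_zero]
    have hLF' : LF ρ F (Fintype.card Γ * s₀) := by
      have h1 := hLF
      rw [hFF, Finset.univ_eq_empty, Finset.sum_empty, add_zero] at h1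
      exact h1
    refine lia ℓ V Γ ρ F N s₀ hLF' ⟨?_, hLX.n2⟩
    intro φ ψ c d hc hd
    have h1 := hLX.n1 φ ψ c d hc hd
    simp only [Finset.univ_eq_empty, Finset.sum_empty, sub_zero] at h1
    exact h1
  · obtain ⟨h, hh⟩ := lhf ℓ V Γ ρ FF _ hLF
    have hG := gid ℓ V Γ I ρ P Z F FF N Y s₀ h hLP hFFd hLF hh hLX
    by_cases hA : ∀ A : Module.End (ZMod ℓ) V, ∃ a : ZMod ℓ, ∑ e : Γ, ρ e * A * ρ e⁻¹ = a • 1
    · exact gsc ℓ V Γ I ρ P Z FF s₀ h hLP hLF hh hG hA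
    · push Not at hA
      obtain ⟨A, hA⟩ := hA
      obtain ⟨a₀⟩ := hI
      refine gdi ℓ V Γ I ρ P Z FF s₀ h hLP hLF hh hG a₀ (∑ e : Γ, ρ e * A * ρ e⁻¹) hA ?_
      intro e
      rw [Finset.sum_mul, Finset.mul_sum]
      refine Fintype.sum_equiv (Equiv.mulLeft e⁻¹) _ _ fun x => ?_
      show ρ x * A * ρ x⁻¹ * ρ e = ρ e * (ρ (e⁻¹ * x) * A * ρ (e⁻¹ * x)⁻¹)
      rw [mul_inv_rev, inv_inv, map_mul, map_mul, ← mul_assoc, ← mul_assoc, ← mul_assoc,
        ← mul_assoc, ← map_mul ρ e, mul_inv_cancel, map_one, one_mul]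

end Pool.Agent.PP.SE.H83
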