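import Pool.Agent.ASE.Stmts7

/-!
# Squad ASE, row GDI: the diagonal case
-/

open scoped BigOperators

set_option linter.unusedSectionVars false

noncomputable section

namespace Pool.Agent.PP.SE.H83

open Pool.Agent.Helper51_AWC Pool.Agent.Helper79_WRA Pool.Agent.PP Pool.Agent.PP.KF
open Pool.Agent.PP.K9 Pool.Agent.PP.K9.H97 Pool.Agent.PP.H75 Pool.Agent.PP.T3 Pool.Agent.PP.SO
open Pool.Agent.PP.SD

theorem two_ne {ℓ : ℕ} [hℓ : Fact ℓ.Prime] (h : ℓ ≠ 2) : (2 : ZMod ℓ) ≠ 0 := by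
  intro h0
  have h1 : ((2 : ℕ) : ZMod ℓ) = 0 := by exact_mod_cast h0
  rw [ZMod.natCast_eq_zero_iff] at h1
  exact h ((Nat.prime_dvd_prime_iff_eq hℓ.out Nat.prime_two).1 h1)

theorem gdi (gdp : GdpStmt) (ltb : SO.LTbStmt) : GdiStmt := by
  intro ℓ _ V Γ I _ _ _ _ _ _ ρ P Z FF s₀ h hLP hLF hHH hGG a₀ θ hθ hθc
  obtain ⟨α, β, v₁, v₂, hv₁, hv₂, hP1, hP2, hρ, hs1, hs2, hb⟩ :=
    gdp ℓ V Γ I ρ P Z hLF.od hLF.rk hLP a₀ θ hθ hθc
  obtain ⟨f, hf⟩ : ∃ f : ZMod ℓ, f = Fintype.card Γ * s₀ + ∑ a, Z a := ⟨_, rfl⟩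
  rw [← hf] at hLF hHH hGG
  have hind : ∀ a : ZMod ℓ, v₂ ≠ a • v₁ := by
    intro a ha
    apply hv₂
    have h1 : P a₀ v₂ = v₂ := by rw [ha, map_smul, hP1]
    rw [← h1, hP2]
  obtain ⟨-, -, hfun⟩ := ltb ℓ V hLF.rk v₁ v₂ hv₁ hind
  obtain ⟨φ₁, h12, h11⟩ := hfun 0 1
  obtain ⟨φ₂, h22, h21⟩ := hfun 1 0
  obtain ⟨p, hpd⟩ : ∃ p : I → ZMod ℓ, p = fun a => φ₁ (P a v₁) := ⟨_, rfl⟩
  have hp : ∀ a, (p a = 1 ∨ p a = 0) ∧ P a v₁ = p a • v₁ ∧ P a v₂ = (1 - p a) • v₂ := by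
    intro a
    rcases hb a with ⟨h1, h2⟩ | ⟨h1, h2⟩
    · have h3 : p a = 1 := by rw [hpd]; show φ₁ (P a v₁) = 1; rw [h1, h11]
      rw [h3, h1, h2]
      exact ⟨Or.inl rfl, by rw [one_smul], by rw [sub_self, zero_smul]⟩
    · have h3 : p a = 0 := by rw [hpd]; show φ₁ (P a v₁) = 0; rw [h1, map_zero]
      rw [h3, h1, h2]
      exact ⟨Or.inr rfl, by rw [zero_smul], by rw [sub_zero, one_smul]⟩
  obtain ⟨c, hcd⟩ : ∃ c, c = v₁ + v₂ := ⟨_, rfl⟩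
  have hc : c ≠ 0 := by
    intro h0
    apply hind (-1)
    rw [neg_smul, one_smul]
    rw [hcd] at h0
    exact (neg_eq_of_add_eq_zero_right h0).symm
  obtain ⟨Z₁, hZ₁⟩ : ∃ Z₁, Z₁ = ∑ a, Z a * p a := ⟨_, rfl⟩
  obtain ⟨Z₂, hZ₂⟩ : ∃ Z₂, Z₂ = ∑ a, Z a * (1 - p a) := ⟨_, rfl⟩
  have hZ : ∑ a, Z a = Z₁ + Z₂ := by
    rw [hZ₁, hZ₂, ← Finset.sum_add_distrib]
    refine Finset.sum_congr rfl fun a _ => ?_
    ring
  obtain ⟨n, hn⟩ : ∃ n : ZMod ℓ, n = (Fintype.card Γ : ZMod ℓ) := ⟨_, rfl⟩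
  have hn0 : n ≠ 0 := by rw [hn]; exact hLF.cp
  -- the vectors
  have e1 : ∀ e, ρ e c = α e • v₁ + β e • v₂ := by
    intro e
    rw [hcd, map_add, (hρ e).1, (hρ e).2.1]
  have hα : ∀ e, α e * (α e)⁻¹ = 1 := fun e => mul_inv_cancel₀ (hρ e).2.2.1
  have hβ : ∀ e, β e * (β e)⁻¹ = 1 := fun e => mul_inv_cancel₀ (hρ e).2.2.2.1
  have r1 : ∀ e, ρ e⁻¹ v₁ = (α e)⁻¹ • v₁ := by
    intro e
    rw [(hρ e⁻¹).1, (hρ e).2.2.2.2.1]
  have r2 : ∀ e, ρ e⁻¹ v₂ = (β e)⁻¹ • v₂ := by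
    intro e
    rw [(hρ e⁻¹).2.1, (hρ e).2.2.2.2.2]
  have e2 : ∀ e, ρ e⁻¹ c = (α e)⁻¹ • v₁ + (β e)⁻¹ • v₂ := by
    intro e
    rw [hcd, map_add, r1, r2]
  have e3 : ∀ a, P a c = p a • v₁ + (1 - p a) • v₂ := by
    intro a
    rw [hcd, map_add, (hp a).2.1, (hp a).2.2]
  have e4 : ∀ e a, P a (ρ e c) = (α e * p a) • v₁ + (β e * (1 - p a)) • v₂ := by
    intro e a
    rw [e1, map_add, map_smul, map_smul, (hp a).2.1, (hp a).2.2, smul_smul, smul_smul]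
  have e5 : ∀ e a, ρ e⁻¹ (P a (ρ e c)) = p a • v₁ + (1 - p a) • v₂ := by
    intro e a
    rw [e4, map_add, map_smul, map_smul, r1, r2, smul_smul, smul_smul]
    congr 2
    · linear_combination (p a) * hα e
    · linear_combination (1 - p a) * hβ e
  have e6 : ∀ e a, ρ e⁻¹ (P a c) = ((α e)⁻¹ * p a) • v₁ + ((β e)⁻¹ * (1 - p a)) • v₂ := by
    intro e a
    rw [e3, map_add, map_smul, map_smul, r1, r2, smul_smul, smul_smul, mul_comm (p a),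
      mul_comm (1 - p a)]
  have e7 : ∑ a, Z a • P a c = Z₁ • v₁ + Z₂ • v₂ := by
    rw [hZ₁, hZ₂, Finset.sum_smul, Finset.sum_smul, ← Finset.sum_add_distrib]
    refine Finset.sum_congr rfl fun a _ => ?_
    rw [e3, smul_add, smul_smul, smul_smul]
  -- the identity
  have key : ∀ φ ψ : V →ₗ[ZMod ℓ] ZMod ℓ,
      (Z₁ + Z₂) * ((φ v₁ + φ v₂) * (ψ v₁ + ψ v₂)) -
        (Z₁ * φ v₁ + Z₂ * φ v₂) * (ψ v₁ + ψ v₂) -
        (φ v₁ + φ v₂) * (Z₁ * ψ v₁ + Z₂ * ψ v₂) +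
      ((f - FF c - FF c) * (φ v₁ * ψ v₁ + φ v₂ * ψ v₂) +
        (φ v₁ + φ v₂) * (h c v₁ * ψ v₁ + h c v₂ * ψ v₂) +
        (ψ v₁ + ψ v₂) * (h c v₁ * φ v₁ + h c v₂ * φ v₂)) +
      (2 * Z₁ * (φ v₁ * ψ v₁) + 2 * Z₂ * (φ v₂ * ψ v₂)) = 0 := by
    intro φ ψ
    have hG := hGG c c hc hc φ ψ
    have hφc : φ c = φ v₁ + φ v₂ := by rw [hcd, map_add]
    have hψc : ψ c = ψ v₁ + ψ v₂ := by rw [hcd, map_add]
    rw [e7, hZ, hφc, hψc] at hG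
    simp only [e5, e6] at hG
    simp only [e4] at hG
    simp only [e3, e2, e1] at hG
    simp only [map_add, map_smul, smul_eq_mul] at hG
    obtain ⟨x, hx⟩ : ∃ x, x = φ v₁ := ⟨_, rfl⟩
    obtain ⟨y, hy⟩ : ∃ y, y = φ v₂ := ⟨_, rfl⟩
    obtain ⟨x', hx'⟩ : ∃ x', x' = ψ v₁ := ⟨_, rfl⟩
    obtain ⟨y', hy'⟩ : ∃ y', y' = ψ v₂ := ⟨_, rfl⟩
    obtain ⟨g, hg⟩ : ∃ g, g = f - FF c - FF c := ⟨_, rfl⟩
    obtain ⟨h₁, hh₁⟩ : ∃ h₁, h₁ = h c v₁ := ⟨_, rfl⟩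
    obtain ⟨h₂, hh₂⟩ : ∃ h₂, h₂ = h c v₂ := ⟨_, rfl⟩
    rw [← hx, ← hy, ← hx', ← hy', ← hg, ← hh₁, ← hh₂, ← hn] at hG
    rw [← hx, ← hy, ← hx', ← hy', ← hg, ← hh₁, ← hh₂]
    have s2 : ∑ e : Γ, (g * (α e * x + β e * y) * ((α e)⁻¹ * x' + (β e)⁻¹ * y') +
        (α e * h₁ + β e * h₂) * (x + y) * ((α e)⁻¹ * x' + (β e)⁻¹ * y') +
        ((α e)⁻¹ * h₁ + (β e)⁻¹ * h₂) * (α e * x + β e * y) * (x' + y')) =
        n * (g * (x * x' + y * y') + (x + y) * (h₁ * x' + h₂ * y') +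
          (x' + y') * (h₁ * x + h₂ * y)) := by
      obtain ⟨K, hK⟩ : ∃ K, K = g * (x * x' + y * y') + (x + y) * (h₁ * x' + h₂ * y') +
          (x' + y') * (h₁ * x + h₂ * y) := ⟨_, rfl⟩
      obtain ⟨A, hA⟩ : ∃ A, A = g * (x * y') + (x + y) * h₁ * y' + (x' + y') * x * h₂ := ⟨_, rfl⟩
      obtain ⟨B, hB⟩ : ∃ B, B = g * (y * x') + (x + y) * h₂ * x' + (x' + y') * y * h₁ := ⟨_, rfl⟩
      have t1 : ∀ e : Γ, (g * (α e * x + β e * y) * ((α e)⁻¹ * x' + (β e)⁻¹ * y') +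
        (α e * h₁ + β e * h₂) * (x + y) * ((α e)⁻¹ * x' + (β e)⁻¹ * y') +
        ((α e)⁻¹ * h₁ + (β e)⁻¹ * h₂) * (α e * x + β e * y) * (x' + y')) =
        K + (A * (α e * (β e)⁻¹) + B * (β e * (α e)⁻¹)) := by
        intro e
        rw [hK, hA, hB]
        linear_combination (g * x * x' + (x + y) * h₁ * x' + (x' + y') * h₁ * x) * hα e +
          (g * y * y' + (x + y) * h₂ * y' + (x' + y') * h₂ * y) * hβ e
      rw [Finset.sum_congr rfl fun e _ => t1 e, Finset.sum_add_distrib, Finset.sum_add_distrib,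
        ← Finset.mul_sum, ← Finset.mul_sum, hs1, hs2, Finset.sum_const, Finset.card_univ,
        nsmul_eq_mul, ← hn, ← hK]
      ring
    have s3 : ∑ e : Γ, ∑ a, Z a * ((p a * x + (1 - p a) * y) * (p a * x' + (1 - p a) * y') +
        (α e * p a * x + β e * (1 - p a) * y) *
          ((α e)⁻¹ * p a * x' + (β e)⁻¹ * (1 - p a) * y')) =
        n * (2 * Z₁ * (x * x') + 2 * Z₂ * (y * y')) := by
      have t1 : ∀ (e : Γ) (a : I), Z a * ((p a * x + (1 - p a) * y) *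
          (p a * x' + (1 - p a) * y') + (α e * p a * x + β e * (1 - p a) * y) *
          ((α e)⁻¹ * p a * x' + (β e)⁻¹ * (1 - p a) * y')) =
          (Z a * p a) * (2 * (x * x')) + (Z a * (1 - p a)) * (2 * (y * y')) := by
        intro e a
        rcases (hp a).1 with h0 | h0
        · rw [h0]
          linear_combination (Z a * x * x') * hα e
        · rw [h0]
          linear_combination (Z a * y * y') * hβ e
      have t2 : ∀ e : Γ, ∑ a, Z a * ((p a * x + (1 - p a) * y) *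
          (p a * x' + (1 - p a) * y') + (α e * p a * x + β e * (1 - p a) * y) *
          ((α e)⁻¹ * p a * x' + (β e)⁻¹ * (1 - p a) * y')) =
          Z₁ * (2 * (x * x')) + Z₂ * (2 * (y * y')) := by
        intro e
        rw [Finset.sum_congr rfl fun a _ => t1 e a, Finset.sum_add_distrib, ← Finset.sum_mul,
          ← Finset.sum_mul, ← hZ₁, ← hZ₂]
      rw [Finset.sum_congr rfl fun e _ => t2 e, Finset.sum_const, Finset.card_univ,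
        nsmul_eq_mul, ← hn]
      ring
    rw [s2, s3] at hG
    have hG' : n * ((Z₁ + Z₂) * ((x + y) * (x' + y')) -
        (Z₁ * x + Z₂ * y) * (x' + y') - (x + y) * (Z₁ * x' + Z₂ * y') +
      (g * (x * x' + y * y') + (x + y) * (h₁ * x' + h₂ * y') +
        (x' + y') * (h₁ * x + h₂ * y)) +
      (2 * Z₁ * (x * x') + 2 * Z₂ * (y * y'))) = 0 := by
      rw [← hG]
      ring
    exact (mul_eq_zero.1 hG').resolve_left hn0
  have k11 := key φ₁ φ₁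
  have k22 := key φ₂ φ₂
  have k12 := key φ₁ φ₂
  rw [h11, h12] at k11
  rw [h21, h22] at k22
  rw [h11, h12, h21, h22] at k12
  have hcc : h c v₁ + h c v₂ = FF c - f := by
    rw [← (hHH c hc).1, ← map_add, ← hcd]
  have hsum0 : h c v₁ + h c v₂ = 0 := by linear_combination k12
  have hFf : FF c = f := by
    have := hcc
    rw [hsum0] at this
    exact (sub_eq_zero.1 this.symm)
  have h2 := two_ne hLF.od
  have hfin : 2 * (n * s₀) = 0 := by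
    have hf' : f = n * s₀ + (Z₁ + Z₂) := by rw [hf, hn, hZ]
    have hs : 2 * ((Z₁ + Z₂) - f) = 0 := by
      linear_combination k11 + k22 - 2 * hsum0 + 4 * hFf
    rw [hf'] at hs
    linear_combination -hs
  rcases mul_eq_zero.1 hfin with h0 | h0
  · exact absurd h0 h2
  · exact (mul_eq_zero.1 h0).resolve_left hn0

end Pool.Agent.PP.SE.H83
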